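import Pool.Agent.Q56.DP.Grp

/-!
The filtration of the geometric Tate classes by the depth with respect to a Frobenius element.
-/

set_option autoImplicit false
set_option linter.unusedSectionVars false

open CategoryTheory AlgebraicGeometry

universe u v w

namespace Pool.Agent.Q56.DP

open Module
open Pool.Agent.H914 Pool.Agent.H914.VarClass Pool.Agent.H914.VarClass.Obj
  Pool.Agent.H914.WeilCohomology
open Pool.Agent.Q55 (GaloisAction SubAction Virtually IsTate tatePred push_act)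
open Pool.Agent.Y133.Half
open Pool.Agent.Q57.ZI
open Pool.Agent.Q57.OP
open Pool.Agent.Q56.NS (sb sb_apply IsDeep)
open Pool.Agent.Y163 (SFam)

variable {k : Type u} [Field k] {𝒱 : VarClass k} {ops : CycleOps 𝒱}
  {W : WeilCohomology.{u, v} ops} {Γ : Type w} [Group Γ] (G : GaloisAction W Γ)
  (D : Subgroup Γ) (φ : Γ) {X Y Z : 𝒱.Obj}

/-- The geometric Tate classes. -/
def geo (Z : 𝒱.Obj) (j : ℕ) : Submodule W.K (W.H Z) where
  carrier := {c | IsTate (res G D) Z j c}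
  add_mem' := fun ha hb => (tatePred (res G D)).add ha hb
  zero_mem' := (tatePred (res G D)).zero
  smul_mem' := fun r _ ha => (tatePred (res G D)).smul r ha

theorem mem_geo {j : ℕ} {c : W.H Z} : c ∈ geo G D Z j ↔ IsTate (res G D) Z j c := Iff.rfl

/-- The action of `g` as a linear map. -/
def L (Z : 𝒱.Obj) (g : Γ) : Module.End W.K (W.H Z) := ((G.ρ Z).act g).toLinearMap

theorem L_apply (g : Γ) (a : W.H Z) : L G Z g a = (G.ρ Z).act g a := rfl

theorem L_pow {g : Γ} (hg : g ∈ (G.ρ Z).dom) (n : ℕ) : L G Z (g ^ n) = L G Z g ^ n :=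
  act_lin_pow _ hg n

theorem geo_stable [D.Normal] {g : Γ} (hg : g ∈ (G.ρ Z).dom) {j : ℕ} {c : W.H Z}
    (hc : c ∈ geo G D Z j) : (G.ρ Z).act g c ∈ geo G D Z j := by
  obtain ⟨hc1, Δ, hΔ, h⟩ := hc
  refine ⟨(G.isGalois Z).gr_mem g hg _ _ hc1,
    Δ.comap (MulAut.conjNormal g⁻¹ : D ≃* D).toMonoidHom, ?_, ?_⟩
  · refine ⟨?_⟩
    rw [Subgroup.index_comap_of_surjective _ (MulEquiv.surjective _)]
    exact hΔ.index_ne_zero
  · rintro ⟨d, hd⟩ hdΔ hdX
    have hdX' : d ∈ (G.ρ Z).dom := hdX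
    have h1 : g⁻¹ * d * g ∈ (G.ρ Z).dom :=
      Subgroup.mul_mem _ (Subgroup.mul_mem _ (Subgroup.inv_mem _ hg) hdX') hg
    have h2 : g⁻¹ * d * g ∈ D := by
      have := Subgroup.Normal.conj_mem (inferInstance : D.Normal) d hd g⁻¹
      rwa [inv_inv] at this
    have h3 : (⟨g⁻¹ * d * g, h2⟩ : D) ∈ Δ := by
      have h4 : (MulAut.conjNormal g⁻¹ : D ≃* D).toMonoidHom ⟨d, hd⟩ ∈ Δ := hdΔ
      have h5 : (MulAut.conjNormal g⁻¹ : D ≃* D).toMonoidHom ⟨d, hd⟩ = ⟨g⁻¹ * d * g, h2⟩ := by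
        apply Subtype.ext
        change ((MulAut.conjNormal g⁻¹ (⟨d, hd⟩ : D) : D) : Γ) = _
        rw [MulAut.conjNormal_apply, inv_inv]
      rwa [h5] at h4
    have h4 : (G.ρ Z).act (g⁻¹ * d * g) c = (G.χ (g⁻¹ * d * g) : W.K) ^ j • c := h _ h3 h1
    have h5 : G.χ (g⁻¹ * d * g) = G.χ d := by
      rw [map_mul, map_mul, map_inv, mul_comm, ← mul_assoc, mul_inv_cancel, one_mul]
    change (G.ρ Z).act d ((G.ρ Z).act g c) = (G.χ d : W.K) ^ j • (G.ρ Z).act g c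
    rw [← act_mul_apply _ hdX' hg, show d * g = g * (g⁻¹ * d * g) by group,
      act_mul_apply _ hg h1, h4, map_smul, h5]

/-- The geometric Tate classes which are at the end of a Jordan chain with `m + 1` members of a
power of `φ`. -/
def Deep (m : ℕ) (Z : 𝒱.Obj) (j : ℕ) (x : W.H Z) : Prop :=
  ∃ s, 0 < s ∧ φ ^ s ∈ (G.ρ Z).dom ∧
    IsDeep (L G Z (φ ^ s)) ((G.χ (φ ^ s) : W.K) ^ j) m (geo G D Z j) x

variable {G D φ}

theorem chi_ne (g : Γ) (j : ℕ) : (G.χ g : W.K) ^ j ≠ 0 := pow_ne_zero _ (G.χ g).ne_zero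

theorem deep_level {m j s r : ℕ} {x : W.H Z} (hr : 0 < r) (hs : φ ^ s ∈ (G.ρ Z).dom)
    (h : IsDeep (L G Z (φ ^ s)) ((G.χ (φ ^ s) : W.K) ^ j) m (geo G D Z j) x) :
    IsDeep (L G Z (φ ^ (s * r))) ((G.χ (φ ^ (s * r)) : W.K) ^ j) m (geo G D Z j) x := by
  have h1 := h.pow (chi_ne _ _) hr
  have e1 : ((G.χ (φ ^ s) : W.K) ^ j) ^ r = (G.χ (φ ^ (s * r)) : W.K) ^ j := by
    rw [pow_mul φ, map_pow (G.χ) (φ ^ s) r, Units.val_pow_eq_pow_val, pow_right_comm]
  have e2 : L G Z (φ ^ s) ^ r = L G Z (φ ^ (s * r)) := by rw [pow_mul, L_pow G hs]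
  rwa [e1, e2] at h1

theorem Deep.level {m j : ℕ} {x : W.H Z} (h : Deep G D φ m Z j x) {t : ℕ} (ht : 0 < t) :
    ∃ s, 0 < s ∧ φ ^ (t * s) ∈ (G.ρ Z).dom ∧ ∀ r, 0 < r →
      IsDeep (L G Z (φ ^ (t * s * r))) ((G.χ (φ ^ (t * s * r)) : W.K) ^ j) m (geo G D Z j) x := by
  obtain ⟨s, hs, hd, h⟩ := h
  refine ⟨s, hs, ?_, fun r hr => ?_⟩
  · rw [mul_comm, pow_mul]; exact Subgroup.pow_mem _ hd t
  · have := deep_level (Nat.mul_pos ht hr) hd h
    rwa [show s * (t * r) = t * s * r by ring] at this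

/-- The level can be chosen such that a given property which holds virtually holds there. -/
theorem Deep.virt {m j : ℕ} {x : W.H Z} (h : Deep G D φ m Z j x) {p : Γ → Prop}
    (hp : Virtually p) : ∃ s, 0 < s ∧ p (φ ^ s) ∧ φ ^ s ∈ (G.ρ Z).dom ∧
      IsDeep (L G Z (φ ^ s)) ((G.χ (φ ^ s) : W.K) ^ j) m (geo G D Z j) x := by
  obtain ⟨t, ht, hp⟩ := exists_level hp φ
  obtain ⟨s, hs, hd, h⟩ := h.level ht
  have h1 := h 1 one_pos
  rw [mul_one] at h1
  exact ⟨t * s, Nat.mul_pos ht hs, hp s, hd, h1⟩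

theorem Deep.virt₂ {m j m' j' : ℕ} {x : W.H Z} {Z' : 𝒱.Obj} {y : W.H Z'}
    (h : Deep G D φ m Z j x) (h' : Deep G D φ m' Z' j' y) {p : Γ → Prop} (hp : Virtually p) :
    ∃ s, 0 < s ∧ p (φ ^ s) ∧ φ ^ s ∈ (G.ρ Z).dom ∧ φ ^ s ∈ (G.ρ Z').dom ∧
      IsDeep (L G Z (φ ^ s)) ((G.χ (φ ^ s) : W.K) ^ j) m (geo G D Z j) x ∧
      IsDeep (L G Z' (φ ^ s)) ((G.χ (φ ^ s) : W.K) ^ j') m' (geo G D Z' j') y := by
  obtain ⟨t, ht, hp⟩ := exists_level hp φ
  obtain ⟨s, hs, hd, h⟩ := h.level ht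
  obtain ⟨s', hs', hd', h'⟩ := h'
  refine ⟨t * s * s', by positivity, ?_, ?_, ?_, h s' hs', ?_⟩
  · rw [mul_assoc]; exact hp _
  · rw [pow_mul]; exact Subgroup.pow_mem _ hd _
  · rw [mul_comm, pow_mul]; exact Subgroup.pow_mem _ hd' _
  · have := deep_level (Nat.mul_pos ht hs) hd' h'
    rwa [mul_comm] at this

theorem L_gr {g : Γ} (hg : g ∈ (G.ρ Z).dom) {i : ℕ} {a : W.H Z} (ha : a ∈ W.gr Z i) :
    L G Z g a ∈ W.gr Z i := (G.isGalois Z).gr_mem g hg _ _ ha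

theorem geo_sb [D.Normal] {g : Γ} (hg : g ∈ (G.ρ Z).dom) {j : ℕ} {β : W.K} {c : W.H Z}
    (hc : c ∈ geo G D Z j) (m : ℕ) : (sb (L G Z g) β ^ m) c ∈ geo G D Z j := by
  induction m generalizing c with
  | zero => exact hc
  | succ m ih =>
    rw [pow_succ, Module.End.mul_apply]
    refine ih ?_
    rw [sb_apply]
    exact Submodule.sub_mem _ (geo_stable G D hg hc) (Submodule.smul_mem _ _ hc)

theorem Deep.geo [D.Normal] {m j : ℕ} {x : W.H Z} (h : Deep G D φ m Z j x) :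
    x ∈ geo G D Z j := by
  obtain ⟨s, -, hd, y, hy, -, rfl⟩ := h
  exact geo_sb hd hy m

theorem Deep.gr [D.Normal] {m j : ℕ} {x : W.H Z} (h : Deep G D φ m Z j x) :
    x ∈ W.gr Z (2 * j) := h.geo.1

variable (G D φ) in
/-- The system of the classes of depth at least `m`. -/
noncomputable def deepFam [hD : D.Normal] (m : ℕ) : SFam W where
  T Z j :=
    { carrier := {x | Deep G D φ m Z j x}
      zero_mem' := by
        obtain ⟨t, ht, hp⟩ := exists_level (virt_dom G Z) φ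
        refine ⟨t, ht, ?_, IsDeep.zero _ _ _ _⟩
        have := hp 1
        rwa [mul_one] at this
      add_mem' := by
        rintro a b ha hb
        obtain ⟨s, hs, -, hd, -, h1, h2⟩ := Deep.virt₂ ha hb (virt_dom G Z)
        exact ⟨s, hs, hd, h1.add h2⟩
      smul_mem' := by
        rintro c a ⟨s, hs, hd, ha⟩
        exact ⟨s, hs, hd, ha.smul c⟩ }
  cl_mul := by
    rintro Z j i z c hz hc
    obtain ⟨s, hs, h1, hd, hc⟩ := Deep.virt hc (G.cl_act Z i z hz)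
    have h1 := h1 hd
    refine ⟨s, hs, hd, hc.image (LinearMap.mulLeft W.K (W.cl Z z))
      (chi_ne (G := G) (φ ^ s) i) ?_ ?_⟩
    · intro y
      rw [LinearMap.mulLeft_apply, LinearMap.mulLeft_apply, sb_apply, sb_apply, L_apply,
        map_mul, h1, L_apply, mul_sub, smul_sub, smul_mul_assoc,
        mul_smul_comm, smul_smul, ← pow_add]
    · intro y hy
      exact (tatePred (res G D)).mul ((tatePred (res G D)).cl hz) hy
  map := by
    rintro X Y f j c hc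
    obtain ⟨s, hs, ⟨h1, hX⟩, hY, hc⟩ := Deep.virt hc (Virtually.and (G.map_act f) (virt_dom G X))
    have h1 := h1 hX hY
    refine ⟨s, hs, hX, hc.image (W.map f).toLinearMap (one_ne_zero (α := W.K)) ?_ ?_⟩
    · intro y
      change sb _ _ (W.map f y) = (1 : W.K) • W.map f _
      rw [one_smul, sb_apply, sb_apply, map_sub, map_smul, L_apply, L_apply, h1]
    · intro y hy
      exact (tatePred (res G D)).map f hy
  push := by
    rintro X Y f i j c hc hij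
    obtain ⟨Δ, hΔ, h⟩ := push_act G f
    obtain ⟨s, hs, ⟨h1, hY⟩, hX, hc⟩ := Deep.virt hc (Virtually.and ⟨Δ, hΔ, h⟩ (virt_dom G Y))
    have h1 := h1 hX hY
    set q : W.K := (G.χ (φ ^ s) : W.K) with hq
    have hq0 : ∀ n, q ^ n ≠ 0 := fun n => chi_ne (φ ^ s) n
    refine ⟨s, hs, hY, hc.image (W.push f) (c := (q ^ X.dim)⁻¹ * q ^ Y.dim)
      (mul_ne_zero (inv_ne_zero (hq0 _)) (hq0 _)) ?_ ?_⟩
    · intro y
      have e1 : (q ^ X.dim) • sb (L G Y (φ ^ s)) (q ^ j) (W.push f y) =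
          (q ^ Y.dim) • W.push f (sb (L G X (φ ^ s)) (q ^ i) y) := by
        rw [sb_apply, sb_apply, smul_sub, L_apply, h1 y, map_sub, smul_sub, map_smul, smul_smul,
          smul_smul, ← pow_add, ← pow_add, show X.dim + j = Y.dim + i by omega]
        rfl
      rw [mul_smul, ← e1, smul_smul, inv_mul_cancel₀ (hq0 _), one_smul]
    · intro y hy
      exact (tatePred (res G D)).push f (by omega) hy
  push_zero := by
    rintro X Y f i c hc hij
    have := W.push_mem f (Deep.gr hc)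
    rw [grZ_of_neg (by push_cast; omega)] at this
    exact (Submodule.mem_bot _).1 this

theorem mem_deepFam [D.Normal] {m j : ℕ} {x : W.H Z} :
    x ∈ (deepFam G D φ m).T Z j ↔ Deep G D φ m Z j x := Iff.rfl

theorem deep_succ_le [D.Normal] (m j : ℕ) :
    (deepFam G D φ (m + 1)).T Z j ≤ (deepFam G D φ m).T Z j := by
  rintro x ⟨s, hs, hd, y, hy, h1, h2⟩
  refine ⟨s, hs, hd, sb (L G Z (φ ^ s)) ((G.χ (φ ^ s) : W.K) ^ j) y, ?_, ?_, ?_⟩
  · have := geo_sb (G := G) (D := D) hd hy (β := (G.χ (φ ^ s) : W.K) ^ j) 1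
    rwa [pow_one] at this
  · rw [← Module.End.mul_apply, ← pow_succ]
    exact h1
  · rw [← Module.End.mul_apply, ← pow_succ]
    exact h2

theorem deep_le [D.Normal] {m n : ℕ} (h : m ≤ n) (j : ℕ) :
    (deepFam G D φ n).T Z j ≤ (deepFam G D φ m).T Z j := by
  induction n, h using Nat.le_induction with
  | base => exact le_rfl
  | succ n _ ih => exact (deep_succ_le n j).trans ih

/-- There are no classes of large depth. -/
theorem deep_eq_bot [D.Normal] {m : ℕ} (h : finrank W.K (W.H Z) ≤ m) (j : ℕ) :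
    (deepFam G D φ m).T Z j = ⊥ := by
  rw [eq_bot_iff]
  rintro x ⟨s, hs, hd, y, hy, h1, h2⟩
  rw [Submodule.mem_bot, h2]
  have h3 : y ∈ LinearMap.ker (sb (L G Z (φ ^ s)) ((G.χ (φ ^ s) : W.K) ^ j) ^ (m + 1)) := h1
  rw [Module.End.ker_pow_eq_ker_pow_finrank_of_le (h.trans (Nat.le_succ m)),
    ← Module.End.ker_pow_eq_ker_pow_finrank_of_le h] at h3
  exact h3

/-- The classes of depth at least zero are Tate classes. -/
theorem deep_tate [D.Normal] (hφ : ∀ g : Γ, ∃ m : ℤ, ∃ d ∈ D, g = φ ^ m * d) {m j : ℕ}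
    {x : W.H Z} (h : Deep G D φ m Z j x) : IsTate G Z j x := by
  have h0 : Deep G D φ 0 Z j x := deep_le (Nat.zero_le m) j h
  obtain ⟨s, hs, hd, y, hy, h1, h2⟩ := h0
  rw [pow_zero, Module.End.one_apply] at h2
  subst h2
  rw [zero_add, pow_one, sb_apply, sub_eq_zero] at h1
  refine ⟨hy.1, ?_⟩
  let V : Subgroup Γ :=
    { carrier := {g | g ∈ (G.ρ Z).dom ∧ (G.ρ Z).act g x = (G.χ g : W.K) ^ j • x}
      mul_mem' := by
        rintro g h ⟨hg, hg'⟩ ⟨hh, hh'⟩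
        refine ⟨Subgroup.mul_mem _ hg hh, ?_⟩
        rw [act_mul_apply _ hg hh, hh', map_smul, hg', smul_smul, map_mul, Units.val_mul,
          mul_pow, mul_comm]
      one_mem' := by
        refine ⟨Subgroup.one_mem _, ?_⟩
        rw [act_one, map_one, Units.val_one, one_pow, one_smul]
        rfl
      inv_mem' := by
        rintro g ⟨hg, hg'⟩
        refine ⟨Subgroup.inv_mem _ hg, ?_⟩
        have e1 : (G.ρ Z).act g⁻¹ ((G.ρ Z).act g x) = x := by
          rw [← act_mul_apply _ (Subgroup.inv_mem _ hg) hg, inv_mul_cancel, act_one]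
          rfl
        rw [hg', map_smul] at e1
        have e2 := congrArg (fun y => ((G.χ g : W.K) ^ j)⁻¹ • y) e1
        simp only [smul_smul, inv_mul_cancel₀ (chi_ne (G := G) g j), one_smul] at e2
        rw [e2, map_inv, Units.val_inv_eq_inv_val, inv_pow] }
  have hV : V.FiniteIndex := by
    refine finiteIndex_of hφ V hs ⟨hd, h1⟩ ?_
    obtain ⟨-, Δ, hΔ, hh⟩ := hy
    have hdom := (G.isGalois Z).finiteIndex
    have h3 : (Δ ⊓ (G.ρ Z).dom.subgroupOf D) ≤ V.subgroupOf D := by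
      rintro ⟨d, hdD⟩ ⟨hd1, hd2⟩
      exact ⟨hd2, hh _ hd1 hd2⟩
    exact Subgroup.finiteIndex_of_le h3
  exact ⟨V, hV, fun g hg _ => hg.2⟩

end Pool.Agent.Q56.DP
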