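import Pool.Agent.Q56.DP.Act
import Pool.Agent.Q56.NS.Index

/-!
A finite index of the Tate classes: there are no Jordan chains of geometric Tate classes.
-/

set_option autoImplicit false
set_option linter.unusedSectionVars false

open CategoryTheory AlgebraicGeometry Filter Topology

open scoped ENNReal TensorProduct

universe u v w

namespace Pool.Agent.Q56.DP

open Module
open Pool.Agent.H914 Pool.Agent.H914.VarClass Pool.Agent.H914.VarClass.Obj
  Pool.Agent.H914.WeilCohomology
open Pool.Agent.W536.RR Pool.Agent.W458.MF Pool.Agent.H281R3.HT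
open Pool.Agent.Q55 (GaloisAction SubAction Virtually IsTate tatePred push_act)
open Pool.Agent.Y133.Half
open Pool.Agent.Q57.ZI
open Pool.Agent.Q57.OP
open Pool.Agent.Q57.SP
open Pool.Agent.Q56.NS (sb sb_apply IsDeep not_finite_descent)
open Pool.Agent.Y163 (SFam)

variable {k : Type u} [Field k] {𝒱 : VarClass k} {ops : CycleOps 𝒱}
  {W : WeilCohomology.{u, v} ops} {Γ : Type w} [Group Γ] {G : GaloisAction W Γ}
  {D : Subgroup Γ} {φ : Γ} {X Y Z : 𝒱.Obj}

/-- The sum of the spaces of all degrees. -/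
noncomputable def tot (F : SFam W) (Z : 𝒱.Obj) : Submodule W.K (W.H Z) := ⨆ j, F.T Z j

theorem tot_of {F : SFam W} {j : ℕ} {x : W.H Z} (hx : x ∈ F.T Z j) : x ∈ tot F Z :=
  Submodule.mem_iSup_of_mem j hx

theorem tot_stab (F : SFam W) (X : 𝒱.Obj) : (algSys W).Stab X fun n => tot F (pw X n) := by
  intro m n f hf a ha
  obtain ⟨c, hc, rfl⟩ := Sys.mem_Op.1 hf
  have hc' : c ∈ algSpan W ((pw X m).prod (pw X n)) := hc
  refine algSpan_induction (p := fun c => W.corr c a ∈ tot F (pw X n)) ?_ ?_ ?_ ?_ hc'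
  · rw [corr_zero, LinearMap.zero_apply]; exact Submodule.zero_mem _
  · intro c d hc hd
    rw [corr_add, LinearMap.add_apply]; exact Submodule.add_mem _ hc hd
  · intro t c hc
    rw [corr_smul, LinearMap.smul_apply]; exact Submodule.smul_mem _ _ hc
  · intro q z hz
    refine Submodule.iSup_induction (fun j => F.T (pw X m) j)
      (motive := fun a => W.corr (W.cl _ z) a ∈ tot F (pw X n)) ha ?_ ?_ ?_
    · intro p x hx
      rw [corr_apply]
      have h1 := F.cl_mul hz (F.map (fst (pw X m) (pw X n)) hx)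
      by_cases h : ((pw X m).prod (pw X n)).dim ≤ q + p + (pw X n).dim
      · exact tot_of (F.push (snd _ _) h1 (q := q + p + (pw X n).dim -
          ((pw X m).prod (pw X n)).dim) (by omega))
      · rw [F.push_zero (snd _ _) h1 (by omega)]
        exact Submodule.zero_mem _
    · rw [map_zero]; exact Submodule.zero_mem _
    · intro x y hx hy
      rw [map_add]; exact Submodule.add_mem _ hx hy

theorem ext_ne_zero {x : W.H X} {y : W.H Y} (hx : x ≠ 0) (hy : y ≠ 0) :
    W.map (fst X Y) x * W.map (snd X Y) y ≠ 0 := by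
  rw [← kappa_tmul]
  intro h
  have h1 : x ⊗ₜ[W.K] y = 0 := (LinearEquiv.map_eq_zero_iff _).1 h
  obtain ⟨f, hf⟩ : ∃ f : Module.Dual W.K (W.H X), f x ≠ 0 := by
    by_contra hcon
    push Not at hcon
    exact hx ((Module.forall_dual_apply_eq_zero_iff W.K x).1 hcon)
  obtain ⟨g, hg⟩ : ∃ g : Module.Dual W.K (W.H Y), g y ≠ 0 := by
    by_contra hcon
    push Not at hcon
    exact hy ((Module.forall_dual_apply_eq_zero_iff W.K y).1 hcon)
  have h2 := congrArg ((TensorProduct.lid W.K W.K).toLinearMap ∘ₗ TensorProduct.map f g) h1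
  rw [LinearMap.comp_apply, TensorProduct.map_tmul, map_zero] at h2
  have h3 : (TensorProduct.lid W.K W.K) (f x ⊗ₜ[W.K] g y) = f x * g y := by
    rw [TensorProduct.lid_tmul, smul_eq_mul]
  exact mul_ne_zero hf hg (h3.symm.trans h2)

/-- The external product of a class of depth `m` and of a class of depth one. -/
theorem deep_prod [D.Normal] {m i j : ℕ} {x : W.H X} {y : W.H Y} (hx : Deep G D φ m X i x)
    (hy : Deep G D φ 1 Y j y) :
    Deep G D φ (m + 1) (X.prod Y) (i + j) (W.map (fst X Y) x * W.map (snd X Y) y) := by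
  obtain ⟨s, hs, ⟨⟨h1, h2⟩, hXY⟩, hX, hY, hx, hy⟩ := Deep.virt₂ hx hy
    (Virtually.and (Virtually.and (G.map_act (fst X Y)) (G.map_act (snd X Y)))
      (virt_dom G (X.prod Y)))
  have h1 := h1 hXY hX
  have h2 := h2 hXY hY
  refine ⟨s, hs, hXY, ?_⟩
  set q : W.K := (G.χ (φ ^ s) : W.K) with hq
  have hq0 : ∀ n, q ^ n ≠ 0 := fun n => chi_ne (φ ^ s) n
  let μ : W.H X →ₗ[W.K] W.H Y →ₗ[W.K] W.H (X.prod Y) :=
    (LinearMap.mul W.K (W.H (X.prod Y))).compl₁₂ (W.map (fst X Y)).toLinearMap
      (W.map (snd X Y)).toLinearMap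
  have hμ : ∀ a b, μ a b = W.map (fst X Y) a * W.map (snd X Y) b := fun a b => rfl
  have h3 := isDeep_prod μ (F₁ := L G X (φ ^ s)) (F₂ := L G Y (φ ^ s))
    (F₃ := L G (X.prod Y) (φ ^ s)) (α := q ^ i) (β := q ^ j) (a := m)
    (S₁ := geo G D X i) (S₂ := geo G D Y j) (S₃ := geo G D (X.prod Y) (i + j)) ?_ ?_ hx hy
  · rw [← pow_add] at h3
    have hc : ((m + 1 : ℕ) : W.K) * (q ^ j) ^ m * q ^ i ≠ 0 := by
      refine mul_ne_zero (mul_ne_zero (Nat.cast_ne_zero.2 (Nat.succ_ne_zero m)) ?_) (hq0 _)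
      exact pow_ne_zero _ (hq0 _)
    have h4 := h3.smul (((m + 1 : ℕ) : W.K) * (q ^ j) ^ m * q ^ i)⁻¹
    rwa [smul_smul, inv_mul_cancel₀ hc, one_smul, hμ] at h4
  · intro a b
    rw [hμ, hμ, L_apply, map_mul, ← h1, ← h2]
    rfl
  · intro a ha b hb
    rw [hμ]
    exact (tatePred (res G D)).mul ((tatePred (res G D)).map _ ha)
      ((tatePred (res G D)).map _ hb)

/-- A class of depth one on a power of `X` gives classes of arbitrary depth. -/
theorem exists_deep [D.Normal] {n j : ℕ} {x : W.H (pw X n)} (hx : Deep G D φ 1 (pw X n) j x)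
    (hx0 : x ≠ 0) (m : ℕ) :
    ∃ (n' j' : ℕ) (y : W.H (pw X n')), Deep G D φ (m + 1) (pw X n') j' y ∧ y ≠ 0 := by
  induction m with
  | zero => exact ⟨n, j, x, hx, hx0⟩
  | succ m ih =>
    obtain ⟨n', j', y, hy, hy0⟩ := ih
    have h1 := deep_prod hy hx
    have h2 := ext_ne_zero hy0 hx0
    have h3 := (deepFam G D φ (m + 1 + 1)).map (pwAdd X n' n).inv h1
    refine ⟨n' + n + 1, j' + j, _, h3, fun h => h2 ?_⟩
    have h4 := congrArg (W.map (pwAdd X n' n).hom) h
    rwa [← W.map_comp, Iso.hom_inv_id, W.map_id, map_zero] at h4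

theorem tot_le_tate [D.Normal] (hφ : ∀ g : Γ, ∃ m : ℤ, ∃ d ∈ D, g = φ ^ m * d) (m : ℕ)
    (Z : 𝒱.Obj) : tot (deepFam G D φ m) Z ≤ (tatePred G).sys.C Z :=
  iSup_le fun _ _ hx => ClassPred.sp_of (deep_tate hφ hx)

/-- **If the index of the Tate classes on the powers of `X` is finite, there are no classes of
positive depth.** -/
theorem no_deep [D.Normal] (hφ : ∀ g : Γ, ∃ m : ℤ, ∃ d ∈ D, g = φ ^ m * d)
    [Nontrivial (W.H X)] (hD : ∀ n, HomEqNum W (pw X n)) {N : ℕ}
    (hN : HasIndex (fun n => dimBy W (IsTate G) (pw X n)) (fun n => cycRank ops (pw X n)) N)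
    {n j : ℕ} {x : W.H (pw X n)} (hx : Deep G D φ 1 (pw X n) j x) : x = 0 := by
  by_contra hx0
  have hnd : ∀ n, (algSys W).Nondeg (pw X n) := by
    intro n c hc hc'
    have h6 := (homEqNum_iff (W := W) (pw X n)).1 (hD n)
    have h7 : c ∈ (algSys W).Num (pw X n) := ⟨hc, hc'⟩
    rw [h6, Submodule.mem_bot] at h7
    exact h7
  have hpos : ∀ n, 0 < finrank W.K ((algSys W).C (pw X n)) := (algSys W).finrank_pos_pw
  -- the index of the Tate classes
  have hI : (algSys W).IsInd X (fun n => (tatePred G).sys.C (pw X n)) (N : ℕ∞) := by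
    refine hN.congr fun n => ?_
    change (dimBy W (IsTate G) (pw X n) : ℝ≥0∞) / cycRank ops (pw X n) = _
    rw [(homEqNum_iff' (W := W) (pw X n)).1 (hD n)]
    rfl
  have hT := Sys.IsInd.real hI
  -- the indices of the classes of depth `m`
  have hst : ∀ m, (algSys W).Stab X fun n => tot (deepFam G D φ m) (pw X n) := fun m =>
    tot_stab _ X
  have hle : ∀ m n, (finrank W.K (tot (deepFam G D φ m) (pw X n)) : ℝ) /
      finrank W.K ((algSys W).C (pw X n)) ≤
      (finrank W.K ((tatePred G).sys.C (pw X n)) : ℝ) / finrank W.K ((algSys W).C (pw X n)) := by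
    intro m n
    apply div_le_div_of_nonneg_right _ (Nat.cast_nonneg _)
    exact_mod_cast Submodule.finrank_mono (tot_le_tate hφ m (pw X n))
  have hfin : ∀ m, ∃ d : ℕ, Tendsto (fun n => (finrank W.K (tot (deepFam G D φ m) (pw X n)) : ℝ) /
      finrank W.K ((algSys W).C (pw X n))) atTop (𝓝 (d : ℝ)) := by
    intro m
    rcases Sys.stab_law hnd (hst m) with ⟨d, -, h2⟩ | h
    · exact ⟨d, h2⟩
    · exfalso
      have h3 := tendsto_atTop_mono (hle m) h
      exact not_tendsto_nhds_of_tendsto_atTop h3 _ hT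
  choose d hd using hfin
  have hanti : ∀ m n, tot (deepFam G D φ (m + 1)) (pw X n) ≤ tot (deepFam G D φ m) (pw X n) :=
    fun m n => iSup_mono fun j => deep_succ_le m j
  have h1 : ∀ m, d (m + 1) ≤ d m := by
    intro m
    have := le_of_tendsto_of_tendsto' (hd (m + 1)) (hd m) fun n => by
      apply div_le_div_of_nonneg_right _ (Nat.cast_nonneg _)
      exact_mod_cast Submodule.finrank_mono (hanti m n)
    exact_mod_cast this
  have h2 : ∀ K, ∃ m, K ≤ m ∧ d (m + 1) < d m := by
    intro K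
    obtain ⟨n', j', y, hy, hy0⟩ := exists_deep hx hx0 K
    by_contra hcon
    push Not at hcon
    have h3 : ∀ r, tot (deepFam G D φ (K + r)) (pw X n') = tot (deepFam G D φ K) (pw X n') := by
      intro r
      induction r with
      | zero => rfl
      | succ r ih =>
        rw [← ih, ← add_assoc]
        by_contra hne
        have h4 := Sys.stab_gap hnd (hst (K + r + 1)) (hst (K + r)) (hanti (K + r)) hne
          (hd (K + r + 1)) (hd (K + r))
        have h5 := hcon (K + r) (by omega)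
        have h6 : d (K + r + 1) + 1 ≤ d (K + r) := by exact_mod_cast h4
        omega
    have h4 : y ∈ tot (deepFam G D φ K) (pw X n') :=
      tot_of (deep_le (Nat.le_succ K) j' hy)
    rw [← h3 (finrank W.K (W.H (pw X n')))] at h4
    have h5 : tot (deepFam G D φ (K + finrank W.K (W.H (pw X n')))) (pw X n') = ⊥ := by
      rw [tot, iSup_eq_bot]
      exact fun j => deep_eq_bot (by omega) j
    rw [h5, Submodule.mem_bot] at h4
    exact hy0 h4
  exact not_finite_descent h1 h2

end Pool.Agent.Q56.DP
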