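import Mathlib

/-!
Complements which are stable under a cyclic extension of a normal subgroup.
-/

set_option autoImplicit false
set_option linter.unusedSectionVars false

namespace Pool.Agent.Q56.DP

open Module

variable {K E : Type*} [Field K] [AddCommGroup E] [Module K E] {Δ : Type*} [Group Δ]
  (r : Δ →* (E ≃ₗ[K] E))

/-- The conjugation of the operators. -/
noncomputable def cj (g : Δ) : Module.End K (Module.End K E) := (r g).conj.toLinearMap

theorem cj_apply (g : Δ) (f : Module.End K E) (a : E) : cj r g f a = r g (f (r g⁻¹ a)) := by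
  have h : (r g).symm a = r g⁻¹ a := by
    rw [map_inv]
    rfl
  rw [← h]
  rfl

theorem cj_mul (g h : Δ) (f : Module.End K E) : cj r (g * h) f = cj r g (cj r h f) := by
  apply LinearMap.ext
  intro a
  rw [cj_apply, cj_apply, cj_apply, mul_inv_rev, map_mul, map_mul]
  rfl

theorem cj_one (f : Module.End K E) : cj r 1 f = f := by
  apply LinearMap.ext
  intro a
  rw [cj_apply, inv_one, map_one]
  rfl

theorem cj_eq_iff {g : Δ} {f : Module.End K E} :
    cj r g f = f ↔ ∀ b, r g (f b) = f (r g b) := by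
  constructor
  · intro h b
    have h1 := congrArg (fun u : Module.End K E => u (r g b)) h
    simp only [cj_apply] at h1
    rw [← h1, map_inv]
    congr 2
    exact ((r g).symm_apply_apply b).symm
  · intro h
    apply LinearMap.ext
    intro a
    rw [cj_apply, h, map_inv]
    congr 1
    exact (r g).apply_symm_apply a

/-- The elements which fix an operator. -/
def fixer (f : Module.End K E) : Subgroup Δ where
  carrier := {g | cj r g f = f}
  mul_mem' := by
    intro g h hg hh
    change cj r (g * h) f = f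
    rw [cj_mul, show cj r h f = f from hh]
    exact hg
  one_mem' := cj_one r f
  inv_mem' := by
    intro g hg
    change cj r g⁻¹ f = f
    conv_lhs => rw [← show cj r g f = f from hg]
    rw [← cj_mul, inv_mul_cancel, cj_one]

/-- A stable subspace with a complement stable under a normal subgroup with a cyclic quotient has a
stable complement, if the generator has no nontrivial unipotent part on the operators which commute
with the normal subgroup. -/
theorem exists_compl [FiniteDimensional K E] (N : Subgroup Δ) [N.Normal] (g₀ : Δ)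
    (hg₀ : ∀ g, ∃ t : ℤ, g₀ ^ (-t) * g ∈ N) {V V' O U : Submodule K E} (hVU : V ≤ U)
    (hUO : IsCompl U O) (hV'1 : V ⊓ V' = ⊥) (hV'2 : V ⊔ V' = U)
    (hV : ∀ g, ∀ v ∈ V, r g v ∈ V) (hO : ∀ g, ∀ v ∈ O, r g v ∈ O)
    (hU : ∀ g, ∀ v ∈ U, r g v ∈ U) (hV'N : ∀ n ∈ N, ∀ v ∈ V', r n v ∈ V')
    (H : ∀ h₀ h₁ : Module.End K E, (∀ a ∈ U, h₀ a ∈ U) → (∀ a ∈ O, h₀ a = 0) →
      (∀ n ∈ N, cj r n h₀ = h₀) → cj r g₀ h₀ = h₀ + h₁ → cj r g₀ h₁ = h₁ → h₁ = 0) :
    ∃ V'' ≤ U, (∀ g, ∀ v ∈ V'', r g v ∈ V'') ∧ V ⊓ V'' = ⊥ ∧ V ⊔ V'' = U := by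
  have hc : IsCompl V (V' ⊔ O) := by
    refine IsCompl.of_eq ?_ ?_
    · rw [eq_bot_iff]
      rintro x ⟨hx, hx'⟩
      obtain ⟨v', hv', o, ho, rfl⟩ := Submodule.mem_sup.1 hx'
      have h1 : o ∈ U := by
        have h2 : v' ∈ U := hV'2 ▸ Submodule.mem_sup_right hv'
        have h3 := Submodule.sub_mem _ (hVU hx) h2
        rwa [add_sub_cancel_left] at h3
      have h2 : o = 0 := by
        have h3 : o ∈ U ⊓ O := ⟨h1, ho⟩
        rw [hUO.inf_eq_bot] at h3
        exact (Submodule.mem_bot _).1 h3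
      subst h2
      rw [add_zero] at hx ⊢
      rw [← hV'1]
      exact ⟨hx, hv'⟩
    · rw [← sup_assoc, hV'2, hUO.sup_eq_top]
  let q : Module.End K E := LinearMap.ofIsCompl hc V.subtype 0
  have hq1 : ∀ v ∈ V, q v = v := fun v hv => LinearMap.ofIsCompl_apply_left hc (⟨v, hv⟩ : V)
  have hq2 : ∀ w ∈ V' ⊔ O, q w = 0 := fun w hw =>
    LinearMap.ofIsCompl_apply_right hc (⟨w, hw⟩ : (V' ⊔ O : Submodule K E))
  have hdec : ∀ a : E, ∃ v ∈ V, ∃ w ∈ V' ⊔ O, v + w = a := fun a =>
    Submodule.mem_sup.1 (by rw [hc.sup_eq_top]; exact Submodule.mem_top)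
  have hq3 : ∀ a, q a ∈ V := by
    intro a
    obtain ⟨v, hv, w, hw, rfl⟩ := hdec a
    rw [map_add, hq1 v hv, hq2 w hw, add_zero]
    exact hv
  have hq4 : ∀ n ∈ N, cj r n q = q := by
    intro n hn
    rw [cj_eq_iff]
    intro b
    obtain ⟨v, hv, w, hw, rfl⟩ := hdec b
    have hw' : r n w ∈ V' ⊔ O := by
      obtain ⟨v', hv', o, ho, rfl⟩ := Submodule.mem_sup.1 hw
      rw [map_add]
      exact Submodule.add_mem_sup (hV'N n hn v' hv') (hO n o ho)
    rw [map_add q, hq1 v hv, hq2 w hw, add_zero, map_add (r n), map_add q, hq1 _ (hV n v hv),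
      hq2 _ hw', add_zero]
  let M : Submodule K (Module.End K E) :=
    { carrier := {f | (∀ a, f a ∈ V) ∧ (∀ a ∈ V, f a = 0) ∧ (∀ a ∈ O, f a = 0) ∧
        ∀ n ∈ N, cj r n f = f}
      add_mem' := by
        rintro f f' ⟨h1, h2, h3, h4⟩ ⟨h1', h2', h3', h4'⟩
        refine ⟨fun a => Submodule.add_mem _ (h1 a) (h1' a), fun a ha => ?_, fun a ha => ?_,
          fun n hn => ?_⟩
        · rw [LinearMap.add_apply, h2 a ha, h2' a ha, add_zero]
        · rw [LinearMap.add_apply, h3 a ha, h3' a ha, add_zero]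
        · rw [map_add, h4 n hn, h4' n hn]
      zero_mem' := ⟨fun a => Submodule.zero_mem _, fun a _ => rfl, fun a _ => rfl,
        fun n _ => map_zero _⟩
      smul_mem' := by
        rintro c f ⟨h1, h2, h3, h4⟩
        refine ⟨fun a => Submodule.smul_mem _ _ (h1 a), fun a ha => ?_, fun a ha => ?_,
          fun n hn => ?_⟩
        · rw [LinearMap.smul_apply, h2 a ha, smul_zero]
        · rw [LinearMap.smul_apply, h3 a ha, smul_zero]
        · rw [map_smul, h4 n hn] }
  have hN : ∀ f : Module.End K E, (∀ n ∈ N, cj r n f = f) → ∀ n ∈ N,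
      cj r n (cj r g₀ f) = cj r g₀ f := by
    intro f hf n hn
    have h1 : g₀⁻¹ * n * g₀ ∈ N := by
      have := Subgroup.Normal.conj_mem (inferInstance : N.Normal) n hn g₀⁻¹
      rwa [inv_inv] at this
    rw [← cj_mul, show n * g₀ = g₀ * (g₀⁻¹ * n * g₀) by group, cj_mul, hf _ h1]
  have hM : ∀ f ∈ M, cj r g₀ f ∈ M := by
    rintro f ⟨h1, h2, h3, h4⟩
    refine ⟨fun a => ?_, fun a ha => ?_, fun a ha => ?_, hN f h4⟩
    · rw [cj_apply]; exact hV _ _ (h1 _)
    · rw [cj_apply, h2 _ (hV _ _ ha), map_zero]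
    · rw [cj_apply, h3 _ (hO _ _ ha), map_zero]
  let C : Module.End K M := (cj r g₀).restrict hM
  have hC : ∀ m : M, ((C m : M) : Module.End K E) = cj r g₀ m := fun m => rfl
  have hδ : q - cj r g₀ q ∈ M := by
    refine ⟨fun a => ?_, fun a ha => ?_, fun a ha => ?_, fun n hn => ?_⟩
    · rw [LinearMap.sub_apply, cj_apply]
      exact Submodule.sub_mem _ (hq3 a) (hV _ _ (hq3 _))
    · rw [LinearMap.sub_apply, cj_apply, hq1 a ha, hq1 _ (hV _ _ ha), map_inv]
      have : r g₀ ((r g₀)⁻¹ a) = a := (r g₀).apply_symm_apply a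
      rw [this, sub_self]
    · rw [LinearMap.sub_apply, cj_apply, hq2 a (Submodule.mem_sup_right ha),
        hq2 _ (Submodule.mem_sup_right (hO _ _ ha)), map_zero, sub_self]
    · rw [map_sub, hN q hq4 n hn, hq4 n hn]
  -- the elements of `M` satisfy the hypotheses
  have hMU : ∀ f ∈ M, ∀ a ∈ U, f a ∈ U := fun f hf a _ => hVU (hf.1 a)
  obtain ⟨m, hm⟩ : ∃ m : M, (C - 1) m = ⟨q - cj r g₀ q, hδ⟩ := by
    have hval : ∀ m : M, (((C - 1) m : M) : Module.End K E) = cj r g₀ m - m := fun m => rfl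
    have key : ∀ (T : Module.End K M) (δ : M), (∀ m, T (T m) = 0 → T m = 0) →
        (∀ m κ, δ = κ + T m → T κ = 0 → κ = 0) → ∃ m, T m = δ := by
      intro T δ h1 h2
      have h3 : LinearMap.ker T ⊓ LinearMap.range T = ⊥ := by
        rw [eq_bot_iff]
        rintro _ ⟨hk, m, rfl⟩
        exact h1 m hk
      have h4 : LinearMap.ker T ⊔ LinearMap.range T = ⊤ := by
        apply Submodule.eq_top_of_finrank_eq
        have h5 := Submodule.finrank_sup_add_finrank_inf_eq (LinearMap.ker T) (LinearMap.range T)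
        have h6 := LinearMap.finrank_range_add_finrank_ker T
        rw [h3, finrank_bot] at h5
        omega
      have h5 : δ ∈ LinearMap.ker T ⊔ LinearMap.range T := h4 ▸ Submodule.mem_top
      obtain ⟨κ, hκ, _, ⟨m, rfl⟩, h6⟩ := Submodule.mem_sup.1 h5
      have h7 := h2 m κ h6.symm hκ
      exact ⟨m, by rw [← h6, h7, zero_add]⟩
    refine key (C - 1) _ ?_ ?_
    · intro m hm
      apply Subtype.ext
      refine H m (((C - 1) m : M) : Module.End K E) (hMU m m.2) m.2.2.2.1 m.2.2.2.2 ?_ ?_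
      · rw [hval, add_sub_cancel]
      · have h1 := congrArg Subtype.val hm
        rw [hval] at h1
        exact sub_eq_zero.1 h1
    · intro m κ h1 h2
      have e1 : q - cj r g₀ q = (κ : Module.End K E) + (cj r g₀ m - m) := congrArg Subtype.val h1
      have e2 : cj r g₀ (κ : Module.End K E) = κ := by
        have h3 := congrArg Subtype.val h2
        rw [hval] at h3
        exact sub_eq_zero.1 h3
      have h3 : -(κ : Module.End K E) = 0 := by
        refine H (q + m) _ (fun a _ => hVU (Submodule.add_mem _ (hq3 a) (m.2.1 a)))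
          (fun a ha => ?_) (fun n hn => ?_) ?_ ?_
        · rw [LinearMap.add_apply, hq2 a (Submodule.mem_sup_right ha), m.2.2.2.1 a ha, add_zero]
        · rw [map_add, hq4 n hn, m.2.2.2.2 n hn]
        · rw [map_add]
          have h4 : cj r g₀ q = q - ((κ : Module.End K E) + (cj r g₀ m - m)) := by
            rw [← e1]; abel
          rw [h4]; abel
        · rw [map_neg, e2]
      exact Subtype.ext (neg_eq_zero.1 h3)
  -- the new projector
  let p : Module.End K E := q + m
  have hp0 : cj r g₀ p = p := by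
    have h1 : cj r g₀ m - m = q - cj r g₀ q := congrArg Subtype.val hm
    change cj r g₀ (q + m) = q + m
    rw [map_add]
    have h2 : cj r g₀ (m : Module.End K E) = (q - cj r g₀ q) + m := by rw [← h1]; abel
    rw [h2]; abel
  have hpN : ∀ n ∈ N, cj r n p = p := by
    intro n hn
    change cj r n (q + m) = q + m
    rw [map_add, hq4 n hn, m.2.2.2.2 n hn]
  have hp : ∀ g, cj r g p = p := by
    intro g
    obtain ⟨t, ht⟩ := hg₀ g
    have h1 : g₀ ∈ fixer r p := hp0
    have h2 : g₀ ^ (-t) * g ∈ fixer r p := hpN _ ht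
    have h3 : g = g₀ ^ t * (g₀ ^ (-t) * g) := by group
    rw [h3]
    exact (fixer r p).mul_mem ((fixer r p).zpow_mem h1 t) h2
  have hp1 : ∀ v ∈ V, p v = v := by
    intro v hv
    change q v + (m : Module.End K E) v = v
    rw [hq1 v hv, m.2.2.1 v hv, add_zero]
  have hp3 : ∀ a, p a ∈ V := fun a => Submodule.add_mem _ (hq3 a) (m.2.1 a)
  refine ⟨LinearMap.ker p ⊓ U, inf_le_right, ?_, ?_, ?_⟩
  · rintro g v ⟨hv, hv'⟩
    refine ⟨?_, hU g v hv'⟩
    change p (r g v) = 0
    rw [← (cj_eq_iff r).1 (hp g) v, show p v = 0 from hv, map_zero]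
  · rw [eq_bot_iff]
    rintro v ⟨hv, hv', -⟩
    rw [Submodule.mem_bot, ← hp1 v hv]
    exact hv'
  · apply le_antisymm (sup_le hVU inf_le_right)
    intro u hu
    have h1 : u = p u + (u - p u) := by abel
    rw [h1]
    refine Submodule.add_mem_sup (hp3 u) ⟨?_, Submodule.sub_mem _ hu (hVU (hp3 u))⟩
    change p (u - p u) = 0
    rw [map_sub, hp1 _ (hp3 u), sub_self]

end Pool.Agent.Q56.DP
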