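import Pool.Agent.Q56.DP.Lin
import Pool.Agent.Q57.OP.Any

/-!
Subgroups of finite index in an extension of a cyclic group.
-/

set_option autoImplicit false
set_option linter.unusedSectionVars false

universe u v w

namespace Pool.Agent.Q56.DP

open Pool.Agent.Q55 (SubAction Virtually)

section Alg

variable {Γ : Type w} [Group Γ] {K : Type*} [Field K] {A : Type*} [Ring A] [Algebra K A]
  (ρ : SubAction Γ K A)

/-- The action as a homomorphism. -/
def hom : ρ.dom →* (A ≃ₐ[K] A) :=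
  MonoidHom.mk' (fun g => ρ.act g) (fun g h => ρ.act_mul g g.2 h h.2)

theorem hom_apply (g : ρ.dom) : hom ρ g = ρ.act g := rfl

theorem act_one : ρ.act 1 = 1 := (hom ρ).map_one

theorem act_pow {g : Γ} (hg : g ∈ ρ.dom) (n : ℕ) : ρ.act (g ^ n) = ρ.act g ^ n :=
  (hom ρ).map_pow ⟨g, hg⟩ n

theorem act_lin_pow {g : Γ} (hg : g ∈ ρ.dom) (n : ℕ) :
    (ρ.act (g ^ n)).toLinearMap = ((ρ.act g).toLinearMap : Module.End K A) ^ n := by
  rw [act_pow ρ hg]
  apply LinearMap.ext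
  intro a
  induction n generalizing a with
  | zero => rfl
  | succ n ih =>
    rw [pow_succ, pow_succ, Module.End.mul_apply, ← ih]
    rfl

theorem act_mul_apply {g h : Γ} (hg : g ∈ ρ.dom) (hh : h ∈ ρ.dom) (a : A) :
    ρ.act (g * h) a = ρ.act g (ρ.act h a) := by
  rw [ρ.act_mul g hg h hh]
  rfl

end Alg

section Grp

variable {Γ : Type w} [Group Γ] {D : Subgroup Γ} {φ : Γ}

theorem exists_level {p : Γ → Prop} (h : Virtually p) (φ : Γ) :
    ∃ t, 0 < t ∧ ∀ s, p (φ ^ (t * s)) := by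
  obtain ⟨Δ, hΔ, h⟩ := h
  obtain ⟨t, ht, -, hm⟩ := Subgroup.exists_pow_mem_of_index_ne_zero hΔ.index_ne_zero φ
  exact ⟨t, ht, fun s => h _ (by rw [pow_mul]; exact Δ.pow_mem hm s)⟩

/-- A subgroup which contains a power of the generator and a subgroup of finite index of the normal
subgroup has finite index. -/
theorem finiteIndex_of [D.Normal] (hφ : ∀ g : Γ, ∃ m : ℤ, ∃ d ∈ D, g = φ ^ m * d)
    (V : Subgroup Γ) {s : ℕ} (hs : 0 < s) (h1 : φ ^ s ∈ V) (h2 : (V.subgroupOf D).FiniteIndex) :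
    V.FiniteIndex := by
  have hfin : Finite (D ⧸ V.subgroupOf D) := Subgroup.finite_quotient_of_finiteIndex
  let f : Fin s × (D ⧸ V.subgroupOf D) → Γ ⧸ V := fun x =>
    ((φ ^ (x.1 : ℕ) * ((x.2.out : D) : Γ) : Γ) : Γ ⧸ V)
  have hf : Function.Surjective f := by
    intro q
    obtain ⟨g, rfl⟩ := QuotientGroup.mk_surjective q
    obtain ⟨m, d, hd, rfl⟩ := hφ g
    have hs' : (0 : ℤ) < s := by exact_mod_cast hs
    obtain ⟨b, hb⟩ : ∃ b : ℕ, (b : ℤ) = m % s := ⟨(m % s).toNat, by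
      rw [Int.toNat_of_nonneg (Int.emod_nonneg _ hs'.ne')]⟩
    have hbs : b < s := by
      have := Int.emod_lt_of_pos m hs'
      rw [← hb] at this
      exact_mod_cast this
    have hm : m = b + s * (m / s) := by rw [hb]; exact (Int.emod_add_mul_ediv m s).symm
    set t := m / (s : ℤ) with ht
    set e : Γ := φ ^ ((s : ℤ) * t) with he
    have heV : e ∈ V := by
      rw [he, zpow_mul]
      exact V.zpow_mem (by rw [zpow_natCast]; exact h1) t
    have hd' : e * d * e⁻¹ ∈ D := Subgroup.Normal.conj_mem inferInstance d hd e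
    let q' : D ⧸ V.subgroupOf D := ((⟨e * d * e⁻¹, hd'⟩ : D) : D ⧸ V.subgroupOf D)
    refine ⟨(⟨b, hbs⟩, q'), ?_⟩
    have h3 : (q'.out)⁻¹ * (⟨e * d * e⁻¹, hd'⟩ : D) ∈ V.subgroupOf D := by
      rw [← QuotientGroup.eq, QuotientGroup.out_eq']
    rw [Subgroup.mem_subgroupOf] at h3
    change (((φ ^ b * ((q'.out : D) : Γ) : Γ) : Γ ⧸ V)) = _
    rw [QuotientGroup.eq]
    have h4 : (φ ^ b * ((q'.out : D) : Γ))⁻¹ * (φ ^ m * d) =
        (((q'.out)⁻¹ * (⟨e * d * e⁻¹, hd'⟩ : D) : D) : Γ) * e := by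
      rw [hm, zpow_add, zpow_natCast, ← he]
      simp only [Subgroup.coe_mul, Subgroup.coe_inv]
      group
    rw [h4]
    exact V.mul_mem h3 heV
  have : Finite (Γ ⧸ V) := Finite.of_surjective f hf
  exact Subgroup.finiteIndex_of_finite_quotient

/-- A generator of a subgroup of finite index modulo the normal subgroup. -/
theorem exists_generator [D.Normal] (hφ : ∀ g : Γ, ∃ m : ℤ, ∃ d ∈ D, g = φ ^ m * d)
    (V : Subgroup Γ) [V.FiniteIndex] : ∃ n : ℕ, 0 < n ∧ ∃ g₀ ∈ V, (∃ d ∈ D, g₀ = φ ^ n * d) ∧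
      ∀ g ∈ V, ∃ t : ℤ, g₀ ^ (-t) * g ∈ D := by
  classical
  let π := QuotientGroup.mk' D
  have hπ : ∀ {x y : Γ}, π x = π y ↔ x⁻¹ * y ∈ D := fun {x y} => QuotientGroup.eq
  have hex : ∃ n : ℕ, 0 < n ∧ ∃ g ∈ V, π g = π φ ^ n := by
    obtain ⟨t, ht, -, hm⟩ :=
      Subgroup.exists_pow_mem_of_index_ne_zero (inferInstance : V.FiniteIndex).index_ne_zero φ
    exact ⟨t, ht, _, hm, map_pow _ _ _⟩
  obtain ⟨hn, g₀, hg₀, hπ₀⟩ := Nat.find_spec hex
  set n := Nat.find hex with hndef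
  refine ⟨n, hn, g₀, hg₀, ?_, ?_⟩
  · refine ⟨(φ ^ n)⁻¹ * g₀, ?_, by group⟩
    rw [← hπ, hπ₀, map_pow]
  · intro g hg
    obtain ⟨m, d, hd, rfl⟩ := hφ g
    have hn' : (0 : ℤ) < n := by exact_mod_cast hn
    refine ⟨m / n, ?_⟩
    have hπg : π (φ ^ m * d) = π φ ^ m := by
      rw [map_mul, map_zpow, show π d = 1 from (QuotientGroup.eq_one_iff d).2 hd, mul_one]
    have h3 : π (g₀ ^ (-(m / (n : ℤ))) * (φ ^ m * d)) = π φ ^ (m % (n : ℤ)) := by
      rw [map_mul, map_zpow, hπ₀, hπg, ← zpow_natCast, ← zpow_mul, ← zpow_add]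
      congr 1
      have := Int.emod_add_mul_ediv m n
      rw [mul_neg]
      omega
    obtain ⟨b, hb⟩ : ∃ b : ℕ, (b : ℤ) = m % n := ⟨(m % n).toNat, by
      rw [Int.toNat_of_nonneg (Int.emod_nonneg _ hn'.ne')]⟩
    rw [← hb, zpow_natCast] at h3
    have hbn : b < n := by
      have := Int.emod_lt_of_pos m hn'
      rw [← hb] at this
      exact_mod_cast this
    rcases Nat.eq_zero_or_pos b with h0 | h0
    · rw [h0, pow_zero] at h3
      exact (QuotientGroup.eq_one_iff _).1 h3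
    · exfalso
      refine Nat.find_min hex hbn ⟨h0, _, ?_, h3⟩
      exact V.mul_mem (V.zpow_mem hg₀ _) hg

end Grp

end Pool.Agent.Q56.DP
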