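import Pool.Agent.Q56.NS.Deep

/-!
Jordan chains in a tensor product with a Jordan block of size two, and fixed vectors in a coset.
-/

set_option autoImplicit false
set_option linter.unusedSectionVars false

open Module LinearMap

namespace Pool.Agent.Q56.DP

open Pool.Agent.Q56.NS (sb sb_apply IsDeep)

section Prod

variable {K : Type*} [Field K] {E₁ E₂ E₃ : Type*} [AddCommGroup E₁] [Module K E₁]
  [AddCommGroup E₂] [Module K E₂] [AddCommGroup E₃] [Module K E₃]
  (μ : E₁ →ₗ[K] E₂ →ₗ[K] E₃) {F₁ : Module.End K E₁} {F₂ : Module.End K E₂}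
  {F₃ : Module.End K E₃} {α β : K}

theorem prod_one (h : ∀ u v, F₃ (μ u v) = μ (F₁ u) (F₂ v)) (u : E₁) (v : E₂) :
    sb F₃ (α * β) (μ u v) = β • μ (sb F₁ α u) v + μ (F₁ u) (sb F₂ β v) := by
  rw [sb_apply, sb_apply, sb_apply, h, map_sub, map_sub, map_smul, map_smul,
    LinearMap.sub_apply, LinearMap.smul_apply, smul_sub, smul_smul, mul_comm β α]
  abel

theorem prod_eig (h : ∀ u v, F₃ (μ u v) = μ (F₁ u) (F₂ v)) {w : E₂} (hw : sb F₂ β w = 0)
    (m : ℕ) (u : E₁) :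
    (sb F₃ (α * β) ^ m) (μ u w) = β ^ m • μ ((sb F₁ α ^ m) u) w := by
  induction m generalizing u with
  | zero => simp
  | succ m ih =>
    rw [pow_succ, Module.End.mul_apply, prod_one μ h, hw, map_zero, add_zero, map_smul, ih,
      smul_smul, pow_succ (sb F₁ α), Module.End.mul_apply, ← pow_succ']

theorem sb_comm (F : Module.End K E₁) (α : K) (u : E₁) : sb F α (F u) = F (sb F α u) := by
  rw [sb_apply, sb_apply, map_sub, map_smul]

theorem prod_pow (h : ∀ u v, F₃ (μ u v) = μ (F₁ u) (F₂ v)) {v : E₂}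
    (hv : sb F₂ β (sb F₂ β v) = 0) (m : ℕ) (u : E₁) :
    (sb F₃ (α * β) ^ (m + 1)) (μ u v) = β ^ (m + 1) • μ ((sb F₁ α ^ (m + 1)) u) v +
      (((m + 1 : ℕ) : K) * β ^ m) • μ ((sb F₁ α ^ m) (F₁ u)) (sb F₂ β v) := by
  induction m generalizing u with
  | zero => simp [prod_one μ h]
  | succ m ih =>
    rw [pow_succ, Module.End.mul_apply, prod_one μ h, map_add, map_smul, ih,
      prod_eig μ h hv, smul_add, smul_smul, smul_smul, pow_succ (sb F₁ α) (m + 1),
      Module.End.mul_apply, ← sb_comm F₁ α u, add_assoc]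
    congr 1
    · rw [← pow_succ']
    · rw [pow_succ (sb F₁ α) m, Module.End.mul_apply, ← add_smul]
      congr 1
      push_cast
      ring

theorem isDeep_prod (h : ∀ u v, F₃ (μ u v) = μ (F₁ u) (F₂ v)) {a : ℕ} {S₁ : Submodule K E₁}
    {S₂ : Submodule K E₂} {S₃ : Submodule K E₃} (hS : ∀ u ∈ S₁, ∀ v ∈ S₂, μ u v ∈ S₃)
    {x : E₁} {y : E₂} (hx : IsDeep F₁ α a S₁ x) (hy : IsDeep F₂ β 1 S₂ y) :
    IsDeep F₃ (α * β) (a + 1) S₃ ((((a + 1 : ℕ) : K) * β ^ a * α) • μ x y) := by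
  obtain ⟨u, hu, hu1, rfl⟩ := hx
  obtain ⟨v, hv, hv1, rfl⟩ := hy
  have hv2 : sb F₂ β (sb F₂ β v) = 0 := by
    rw [← Module.End.mul_apply, ← pow_two]
    exact hv1
  have hF : ∀ m, (sb F₁ α ^ m) (F₁ u) = (sb F₁ α ^ (m + 1)) u + α • (sb F₁ α ^ m) u := by
    intro m
    have h1 : F₁ u = sb F₁ α u + α • u := by rw [sb_apply, sub_add_cancel]
    conv_lhs => rw [h1]
    rw [map_add, map_smul, pow_succ, Module.End.mul_apply]
  refine ⟨μ u v, hS u hu v hv, ?_, ?_⟩
  · rw [prod_pow μ h hv2, hF, pow_succ' (sb F₁ α) (a + 1), Module.End.mul_apply, hu1]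
    simp
  · rw [prod_pow μ h hv2, hF, hu1, zero_add, map_zero, LinearMap.zero_apply, smul_zero, zero_add,
      map_smul, LinearMap.smul_apply, smul_smul, pow_one]

end Prod

/-- A linear system which has a solution because its defect vanishes. -/
theorem exists_fixed {K M : Type*} [Field K] [AddCommGroup M] [Module K M] [FiniteDimensional K M]
    (T : Module.End K M) (δ : M) (h1 : ∀ m, T (T m) = 0 → T m = 0)
    (h2 : ∀ m κ, δ = κ + T m → T κ = 0 → κ = 0) : ∃ m, T m = δ := by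
  have h3 : LinearMap.ker T ⊓ LinearMap.range T = ⊥ := by
    rw [eq_bot_iff]
    rintro _ ⟨hk, m, rfl⟩
    exact h1 m hk
  have h4 : LinearMap.ker T ⊔ LinearMap.range T = ⊤ := by
    apply Submodule.eq_top_of_finrank_eq
    have h5 := Submodule.finrank_sup_add_finrank_inf_eq (LinearMap.ker T) (LinearMap.range T)
    have h6 := LinearMap.finrank_range_add_finrank_ker T
    rw [h3, finrank_bot] at h5
    omega
  have h5 : δ ∈ LinearMap.ker T ⊔ LinearMap.range T := h4 ▸ Submodule.mem_top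
  obtain ⟨κ, hκ, _, ⟨m, rfl⟩, h6⟩ := Submodule.mem_sup.1 h5
  have h7 := h2 m κ h6.symm hκ
  exact ⟨m, by rw [← h6, h7, zero_add]⟩

end Pool.Agent.Q56.DP
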