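import Pool.Agent.Q56.DP.Semi

/-!
A finite index of the Tate classes on the powers implies the semisimplicity of the Galois
representations on the cohomology of the powers.
-/

set_option autoImplicit false
set_option linter.unusedSectionVars false

open CategoryTheory AlgebraicGeometry Filter Topology

open scoped ENNReal

universe u v w

namespace Pool.Agent.Q56.DP

open Module
open Pool.Agent.H914 Pool.Agent.H914.VarClass Pool.Agent.H914.VarClass.Obj
  Pool.Agent.H914.WeilCohomology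
open Pool.Agent.Q55 (GaloisAction SubAction Virtually IsTate tatePred TateConj)
open Pool.Agent.Y133.Half
open Pool.Agent.Q57.OP
open Pool.Agent.Q57.SP
open Pool.Agent.Q60.TD (SemisimpleAt)

variable {k : Type u} [Field k] {𝒱 : VarClass k} {ops : CycleOps 𝒱}
  {W : WeilCohomology.{u, v} ops} {Γ : Type w} [Group Γ] {G : GaloisAction W Γ}
  {D : Subgroup Γ} {φ : Γ} {X Y Z : 𝒱.Obj}

theorem no_deep' [D.Normal] (hφ : ∀ g : Γ, ∃ m : ℤ, ∃ d ∈ D, g = φ ^ m * d)
    [Nontrivial (W.H X)] (hD : ∀ n, HomEqNum W (pw X n)) {N : ℕ∞} (hN' : N ≠ ⊤)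
    (hN : HasIndex (fun n => dimBy W (IsTate G) (pw X n)) (fun n => cycRank ops (pw X n)) N)
    {n j : ℕ} {x : W.H (pw X n)} (hx : Deep G D φ 1 (pw X n) j x) : x = 0 := by
  obtain ⟨M, rfl⟩ := ENat.ne_top_iff_exists.1 hN'
  exact no_deep hφ hD hN hx

theorem no_deep_sq [D.Normal] (hφ : ∀ g : Γ, ∃ m : ℤ, ∃ d ∈ D, g = φ ^ m * d)
    [Nontrivial (W.H X)] (hD : ∀ n, HomEqNum W (pw X n)) {N : ℕ∞} (hN' : N ≠ ⊤)
    (hN : HasIndex (fun n => dimBy W (IsTate G) (pw X n)) (fun n => cycRank ops (pw X n)) N)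
    (n : ℕ) {j : ℕ} {x : W.H ((pw X n).prod (pw X n))}
    (hx : Deep G D φ 1 ((pw X n).prod (pw X n)) j x) : x = 0 := by
  have h3 := (deepFam G D φ 1).map (pwAdd X n n).inv hx
  have h4 := no_deep' hφ hD hN' hN h3
  have h5 := congrArg (W.map (pwAdd X n n).hom) h4
  rwa [← W.map_comp, Iso.hom_inv_id, W.map_id, map_zero] at h5

/-- **Finite index implies semisimplicity.** -/
theorem finite_index_semisimple (G : GaloisAction W Γ) (D : Subgroup Γ) [D.Normal] (φ : Γ)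
    (hφ : ∀ g : Γ, ∃ m : ℤ, ∃ d ∈ D, g = φ ^ m * d) (X : 𝒱.Obj) [Nontrivial (W.H X)] :
    ∃ N : ℕ∞, 1 ≤ N ∧
      HasIndex (fun n => dimBy W (IsTate G) (pw X n)) (fun n => cycRank ops (pw X n)) N ∧
      (N = 1 ↔ ∀ n, TateConj G (pw X n) ∧ HomEqNum W (pw X n)) ∧
      (N ≠ ⊤ → (∀ n, HomEqNum W (pw X n)) ∧
        ∀ n i, SemisimpleAt (res G D) (pw X n) i → SemisimpleAt G (pw X n) i) := by
  obtain ⟨N, h1, h2, h3, h4⟩ := full_index (tatePred G) X
  refine ⟨N, h1, h2, h3, fun hN => ⟨(h4 hN).1, fun n i hgeo => ?_⟩⟩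
  exact semisimple_of_no_deep G hφ (fun x hx => no_deep_sq hφ (h4 hN).1 hN h2 n hx) hgeo

end Pool.Agent.Q56.DP
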