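import Pool.Agent.Q57.OP.Res
import Pool.Agent.Q60.TD.Defs
import Pool.Agent.Y133.Half.PairDefs

/-!
Generalised Tate classes and the indices of the Tate classes and of the poles: definitions
-/

set_option autoImplicit false

open CategoryTheory AlgebraicGeometry

universe u v w

namespace Pool.Agent.Q56.DP

open Pool.Agent.H914 Pool.Agent.H914.VarClass Pool.Agent.H914.VarClass.Obj
open Pool.Agent.Q55 (GaloisAction SubAction IsTate TateConj)
open Pool.Agent.Q57.OP (res)
open Pool.Agent.Q60.TD (SemisimpleAt)
open Pool.Agent.Y133.Half (pw HasIndex dimBy cycRank)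

section Alg

variable {Γ : Type w} [Group Γ] {K : Type*} [Field K] {A : Type*} [Ring A] [Algebra K A]

/-- Some power `φ ^ s`, `s > 0`, acts, and `c` is killed by an iterate of `φ ^ s - χ (φ ^ s) ^ j`. -/
def Killed (ρ : SubAction Γ K A) (χ : Γ →* Kˣ) (j : ℕ) (φ : Γ) (c : A) : Prop :=
  ∃ s m : ℕ, 0 < s ∧ φ ^ s ∈ ρ.dom ∧
    (fun a : A => ρ.act (φ ^ s) a - (χ (φ ^ s) : K) ^ j • a)^[m] c = 0

end Alg

variable {k : Type u} [Field k] {𝒱 : VarClass k} {ops : CycleOps 𝒱}
  {W : WeilCohomology.{u, v} ops} {Γ : Type w} [Group Γ]

/-- The generalised Tate classes: the classes in `H^(2 j)(Z)` which are fixed, up to the twist, by a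
subgroup of finite index of `D`, and which are killed by a power of the difference of a power of `φ`
and of the corresponding twist. If `Γ` is the Weil group of a finitely generated field of
characteristic `p`, `D` the geometric Galois group and `φ` a Frobenius element, the dimension of the
space of these classes is the order of the pole of the L-function of `H^(2 j)(Z)` at the first
critical point (over a sufficiently large finite extension of the field). -/
def IsGenTate (G : GaloisAction W Γ) (D : Subgroup Γ) (φ : Γ) (Z : 𝒱.Obj) (j : ℕ)
    (c : W.H Z) : Prop :=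
  IsTate (res G D) Z j c ∧ Killed (G.ρ Z) G.χ j φ c

/-- The dimension of the space spanned by the Tate classes of all degrees on the product of `n + 1`
copies of `X`. -/
noncomputable def tateNumber (G : GaloisAction W Γ) (X : 𝒱.Obj) (n : ℕ) : ℕ :=
  dimBy W (IsTate G) (pw X n)

/-- The dimension of the space spanned by the generalised Tate classes of all degrees on the product
of `n + 1` copies of `X`. -/
noncomputable def poleNumber (G : GaloisAction W Γ) (D : Subgroup Γ) (φ : Γ) (X : 𝒱.Obj)
    (n : ℕ) : ℕ :=
  dimBy W (IsGenTate G D φ) (pw X n)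

/-- The rank of the cycles modulo numerical equivalence on the product of `n + 1` copies of `X`. -/
noncomputable def rankNumber (ops : CycleOps 𝒱) (X : 𝒱.Obj) (n : ℕ) : ℕ := cycRank ops (pw X n)

/-- All Tate classes on `Z` are linear combinations of classes of cycles, and homological and
numerical equivalence agree on `Z`. -/
def TateNum (G : GaloisAction W Γ) (Z : 𝒱.Obj) : Prop := TateConj G Z ∧ HomEqNum W Z

/-- Homological and numerical equivalence agree on `Z`, the generalised Tate classes on `Z` are the
Tate classes, and the representation on `H^i(Z)` is semisimple if its restriction to `D` is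
semisimple. -/
def Regular (G : GaloisAction W Γ) (D : Subgroup Γ) (φ : Γ) (Z : 𝒱.Obj) : Prop :=
  HomEqNum W Z ∧ (∀ j c, IsGenTate G D φ Z j c ↔ IsTate G Z j c) ∧
    ∀ i, SemisimpleAt (res G D) Z i → SemisimpleAt G Z i

end Pool.Agent.Q56.DP
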