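import Pool.Agent.Q56.DP.Main
import Pool.Agent.Q56.DP.PoleDefs

/-!
The index of the generalised Tate classes, and its independence of the cohomology theory.
-/

set_option autoImplicit false
set_option linter.unusedSectionVars false

open CategoryTheory AlgebraicGeometry Filter Topology

open scoped ENNReal

universe u v v' w

namespace Pool.Agent.Q56.DP

open Module
open Pool.Agent.H914 Pool.Agent.H914.VarClass Pool.Agent.H914.VarClass.Obj
  Pool.Agent.H914.WeilCohomology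
open Pool.Agent.Q55 (GaloisAction SubAction Virtually IsTate tatePred TateConj)
open Pool.Agent.Y133.Half
open Pool.Agent.Q57.ZI
open Pool.Agent.Q57.OP
open Pool.Agent.Q57.SP
open Pool.Agent.Q56.NS (sb sb_apply IsDeep)
open Pool.Agent.Q60.TD (SemisimpleAt)

variable {k : Type u} [Field k] {𝒱 : VarClass k} {ops : CycleOps 𝒱}
  {W : WeilCohomology.{u, v} ops} {Γ : Type w} [Group Γ] {G : GaloisAction W Γ}
  {D : Subgroup Γ} {φ : Γ} {X Y Z : 𝒱.Obj}

theorem gen_of_tate {j : ℕ} {c : W.H Z} (h : IsTate G Z j c) : IsGenTate G D φ Z j c := by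
  refine ⟨tateOn_of_tate G D h, ?_⟩
  obtain ⟨s, hs, hp⟩ := exists_level (Virtually.and (virt_dom G Z) h.2) φ
  obtain ⟨h1, h2⟩ := hp 1
  rw [mul_one] at h1 h2
  refine ⟨s, 1, hs, h1, ?_⟩
  change (G.ρ Z).act (φ ^ s) c - (G.χ (φ ^ s) : W.K) ^ j • c = 0
  rw [h2 h1, sub_self]

theorem tate_of_gen [D.Normal] (hφ : ∀ g : Γ, ∃ m : ℤ, ∃ d ∈ D, g = φ ^ m * d) {j : ℕ}
    (hno : ∀ x, Deep G D φ 1 Z j x → x = 0) {c : W.H Z} (h : IsGenTate G D φ Z j c) :
    IsTate G Z j c := by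
  obtain ⟨hc, s, m, hs, hd, h0⟩ := h
  set A := sb (L G Z (φ ^ s)) ((G.χ (φ ^ s) : W.K) ^ j) with hA
  have hpow : ∀ (m : ℕ) (c : W.H Z),
      (fun a : W.H Z => (G.ρ Z).act (φ ^ s) a - (G.χ (φ ^ s) : W.K) ^ j • a)^[m] c =
        (A ^ m) c := by
    intro m
    induction m with
    | zero => intro c; rfl
    | succ m ih =>
      intro c
      rw [Function.iterate_succ_apply, ih, pow_succ, Module.End.mul_apply]
      rfl
  rw [hpow] at h0
  -- the class is killed by the first power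
  have key : ∀ m, ∀ c ∈ geo G D Z j, (A ^ (m + 1)) c = 0 → A c = 0 := by
    intro m
    induction m with
    | zero => intro c _ h; rwa [zero_add, pow_one] at h
    | succ m ih =>
      intro c hc h
      have h1 : A c ∈ geo G D Z j := by
        have := geo_sb (G := G) (D := D) hd hc (β := (G.χ (φ ^ s) : W.K) ^ j) 1
        rwa [pow_one] at this
      have h2 : A (A c) = 0 := by
        refine ih (A c) h1 ?_
        rw [← Module.End.mul_apply, ← pow_succ]
        exact h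
      exact hno (A c) ⟨s, hs, hd, c, hc, by
        rw [pow_succ, pow_one, Module.End.mul_apply]; exact h2, by rw [pow_one]⟩
  have h1 : A c = 0 := by
    rcases m with _ | m
    · rw [pow_zero, Module.End.one_apply] at h0
      rw [h0, map_zero]
    · exact key m c hc h0
  have h2 : Deep G D φ 0 Z j c := ⟨s, hs, hd, c, hc, by rw [zero_add, pow_one]; exact h1, rfl⟩
  exact deep_tate hφ h2

theorem dimBy_mono {P P' : ∀ Z : 𝒱.Obj, ℕ → W.H Z → Prop} (h : ∀ j c, P Z j c → P' Z j c) :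
    dimBy W P Z ≤ dimBy W P' Z := by
  apply Submodule.finrank_mono
  apply Submodule.span_mono
  rintro c ⟨j, hc⟩
  exact ⟨j, h j c hc⟩

theorem dimBy_congr {P P' : ∀ Z : 𝒱.Obj, ℕ → W.H Z → Prop} (h : ∀ j c, P Z j c ↔ P' Z j c) :
    dimBy W P Z = dimBy W P' Z :=
  le_antisymm (dimBy_mono fun j c => (h j c).1) (dimBy_mono fun j c => (h j c).2)

/-- **The index of the poles.** -/
theorem pole_index (G : GaloisAction W Γ) (D : Subgroup Γ) [D.Normal] (φ : Γ)
    (hφ : ∀ g : Γ, ∃ m : ℤ, ∃ d ∈ D, g = φ ^ m * d) (X : 𝒱.Obj) [Nontrivial (W.H X)] :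
    ∃ N : ℕ∞, 1 ≤ N ∧ HasIndex (tateNumber G X) (rankNumber ops X) N ∧
      HasIndex (poleNumber G D φ X) (rankNumber ops X) N ∧
      (N = 1 ↔ ∀ n, TateNum G (pw X n)) ∧ (N ≠ ⊤ → ∀ n, Regular G D φ (pw X n)) := by
  obtain ⟨N, h1, h2, h3, h4⟩ := full_index (tatePred G) X
  have h5 : N ≠ ⊤ → ∀ n j c, IsGenTate G D φ (pw X n) j c ↔ IsTate G (pw X n) j c := by
    intro hN n j c
    refine ⟨fun hc => ?_, gen_of_tate⟩
    exact tate_of_gen hφ (fun x hx => no_deep' hφ (h4 hN).1 hN h2 hx) hc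
  refine ⟨N, h1, h2, ?_, h3, fun hN n => ⟨(h4 hN).1 n, h5 hN n, fun i hgeo => ?_⟩⟩
  · by_cases hN : N = ⊤
    · subst hN
      unfold HasIndex at h2 ⊢
      refine tendsto_nhds_top_mono' h2 fun n => ?_
      apply ENNReal.div_le_div_right
      exact_mod_cast dimBy_mono fun j c hc => gen_of_tate hc
    · refine Filter.Tendsto.congr (fun n => ?_) h2
      change (dimBy W (IsTate G) (pw X n) : ℝ≥0∞) / _ =
        (dimBy W (IsGenTate G D φ) (pw X n) : ℝ≥0∞) / _
      rw [dimBy_congr fun j c => (h5 hN n j c).symm]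
      rfl
  · exact semisimple_of_no_deep G hφ (fun x hx => no_deep_sq hφ (h4 hN).1 hN h2 n hx) hgeo

/-- **The index is independent of the cohomology theory.** -/
theorem index_independent {W' : WeilCohomology.{u, v'} ops} (G : GaloisAction W Γ)
    (G' : GaloisAction W' Γ) (D : Subgroup Γ) [D.Normal] (φ : Γ)
    (hφ : ∀ g : Γ, ∃ m : ℤ, ∃ d ∈ D, g = φ ^ m * d) (X : 𝒱.Obj) [Nontrivial (W.H X)]
    [Nontrivial (W'.H X)] (hL : poleNumber G D φ X = poleNumber G' D φ X) :
    ∃ N : ℕ∞, 1 ≤ N ∧ HasIndex (poleNumber G D φ X) (rankNumber ops X) N ∧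
      HasIndex (tateNumber G X) (rankNumber ops X) N ∧
      HasIndex (tateNumber G' X) (rankNumber ops X) N ∧
      (N = 1 ↔ ∀ n, TateNum G (pw X n)) ∧ (N = 1 ↔ ∀ n, TateNum G' (pw X n)) ∧
      (N ≠ ⊤ → tateNumber G X = tateNumber G' X ∧
        ∀ n, Regular G D φ (pw X n) ∧ Regular G' D φ (pw X n)) := by
  obtain ⟨N, a1, a2, a3, a4, a5⟩ := pole_index G D φ hφ X
  obtain ⟨N', b1, b2, b3, b4, b5⟩ := pole_index G' D φ hφ X
  have hN : N = N' := by
    rw [hL] at a3
    have h2 := tendsto_nhds_unique a3 b3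
    exact_mod_cast h2
  subst hN
  refine ⟨N, a1, a3, a2, b2, a4, b4, fun hN => ⟨funext fun n => ?_, fun n => ⟨a5 hN n, b5 hN n⟩⟩⟩
  have h1 := congrFun hL n
  rw [poleNumber, poleNumber, dimBy_congr (a5 hN n).2.1, dimBy_congr (b5 hN n).2.1] at h1
  exact h1

end Pool.Agent.Q56.DP
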