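import Pool.Agent.Q56.DP.Chain
import Pool.Agent.Q56.DP.Cyc
import Pool.Agent.Q60.TD.Defs

/-!
Semisimplicity of the representations if there are no classes of positive depth on the square.
-/

set_option autoImplicit false
set_option linter.unusedSectionVars false

open CategoryTheory AlgebraicGeometry

universe u v w

namespace Pool.Agent.Q56.DP

open Module
open Pool.Agent.H914 Pool.Agent.H914.VarClass Pool.Agent.H914.VarClass.Obj
  Pool.Agent.H914.WeilCohomology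
open Pool.Agent.Q55 (GaloisAction SubAction Virtually IsTate tatePred push_act)
open Pool.Agent.Q57.ZI
open Pool.Agent.Q57.OP
open Pool.Agent.Q56.NS (sb sb_apply IsDeep)
open Pool.Agent.Q60.TD (SemisimpleAt ActStable ActSemisimple)

section Grp

variable {K E : Type*} [Field K] [AddCommGroup E] [Module K E] {Δ : Type*} [Group Δ]
  (r : Δ →* (E ≃ₗ[K] E))

theorem cj_fixed {N : Subgroup Δ} [N.Normal] (g₀ : Δ) {f : Module.End K E}
    (hf : ∀ n ∈ N, cj r n f = f) : ∀ n ∈ N, cj r n (cj r g₀ f) = cj r g₀ f := by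
  intro n hn
  have h1 : g₀⁻¹ * n * g₀ ∈ N := by
    have := Subgroup.Normal.conj_mem (inferInstance : N.Normal) n hn g₀⁻¹
    rwa [inv_inv] at this
  rw [← cj_mul, show n * g₀ = g₀ * (g₀⁻¹ * n * g₀) by group, cj_mul, hf _ h1]

theorem cj_pow (g₀ : Δ) {h₀ h₁ : Module.End K E} (h : cj r g₀ h₀ = h₀ + h₁)
    (h' : cj r g₀ h₁ = h₁) (m : ℕ) :
    cj r (g₀ ^ m) h₀ = h₀ + (m : K) • h₁ ∧ cj r (g₀ ^ m) h₁ = h₁ := by
  induction m with
  | zero => rw [pow_zero, cj_one, cj_one]; simp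
  | succ m ih =>
    obtain ⟨ih1, ih2⟩ := ih
    rw [pow_succ', cj_mul, cj_mul, ih1, ih2, map_add, map_smul, h, h']
    refine ⟨?_, rfl⟩
    push_cast
    rw [add_smul, one_smul]
    abel

end Grp

variable {k : Type u} [Field k] {𝒱 : VarClass k} {ops : CycleOps 𝒱}
  {W : WeilCohomology.{u, v} ops} {Γ : Type w} [Group Γ] (G : GaloisAction W Γ)
  {D : Subgroup Γ} {φ : Γ} {X Y Z : 𝒱.Obj}

/-- The action by linear maps. -/
noncomputable def rl (X : 𝒱.Obj) : (G.ρ X).dom →* (W.H X ≃ₗ[W.K] W.H X) :=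
  MonoidHom.mk' (fun g => ((G.ρ X).act g).toLinearEquiv) fun g h => by
    apply LinearEquiv.ext
    intro a
    exact act_mul_apply _ g.2 h.2 a

theorem rl_apply (g : (G.ρ X).dom) (a : W.H X) : rl G X g a = (G.ρ X).act g a := rfl

theorem proj_act {g : Γ} (hg : g ∈ (G.ρ X).dom) (i : ℕ) (a : W.H X) :
    H914.proj (W.isInternal X) i ((G.ρ X).act g a) =
      (G.ρ X).act g (H914.proj (W.isInternal X) i a) := by
  refine gr_induction (W.isInternal X) (p := fun a =>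
    H914.proj (W.isInternal X) i ((G.ρ X).act g a) =
      (G.ρ X).act g (H914.proj (W.isInternal X) i a)) ?_ ?_ a
  · intro j a ha
    have ha' := (G.isGalois X).gr_mem g hg j a ha
    by_cases h : j = i
    · subst h
      rw [proj_same _ ha, proj_same _ ha']
    · rw [proj_ne _ ha h, proj_ne _ ha' h, map_zero]
  · intro a b ha hb
    rw [map_add, map_add, map_add, map_add, ha, hb]

/-- The action on the classes of the operators. -/
theorem act_corr' {g : Γ} (hg : g ∈ (G.ρ X).dom)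
    (h : ∀ (z : W.H (X.prod X)) (a : W.H X), (G.χ g : W.K) ^ X.dim • (G.ρ X).act g (W.corr z a) =
      W.corr ((G.ρ (X.prod X)).act g z) ((G.ρ X).act g a)) {z z' : W.H (X.prod X)}
    (hz : cj (rl G X) ⟨g, hg⟩ (W.corr z) = W.corr z') :
    (G.ρ (X.prod X)).act g z = (G.χ g : W.K) ^ X.dim • z' := by
  rw [← sub_eq_zero]
  apply corr_inj
  apply LinearMap.ext
  intro b
  have h1 := congrArg (fun u : Module.End W.K (W.H X) => u b) hz
  simp only [cj_apply, rl_apply] at h1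
  have h2 := h z (rl G X (⟨g, hg⟩ : (G.ρ X).dom)⁻¹ b)
  have h3 : (G.ρ X).act g (rl G X (⟨g, hg⟩ : (G.ρ X).dom)⁻¹ b) = b := by
    rw [← rl_apply G (⟨g, hg⟩ : (G.ρ X).dom), map_inv]
    exact (rl G X (⟨g, hg⟩ : (G.ρ X).dom)).apply_symm_apply b
  rw [h3] at h2
  rw [sub_eq_add_neg, corr_add, LinearMap.add_apply, ← h2, ← neg_smul, corr_smul,
    LinearMap.smul_apply, neg_smul, ← h1]
  exact add_neg_cancel _

/-- **The semisimplicity of the representations.** -/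
theorem semisimple_of_no_deep [D.Normal] (hφ : ∀ g : Γ, ∃ m : ℤ, ∃ d ∈ D, g = φ ^ m * d)
    (hno : ∀ x, Deep G D φ 1 (X.prod X) X.dim x → x = 0) {i : ℕ}
    (hgeo : SemisimpleAt (res G D) X i) : SemisimpleAt G X i := by
  intro V hVU hV
  have hdom := (G.isGalois X).finiteIndex
  obtain ⟨n, hn, g₀, hg₀, ⟨d₀, hd₀, hg₀'⟩, hgen⟩ := exists_generator hφ (G.ρ X).dom
  obtain ⟨V', hV'U, hV', hVV1, hVV2⟩ := hgeo V hVU fun d hd c hc => hV d hd c hc
  set N : Subgroup (G.ρ X).dom := D.subgroupOf (G.ρ X).dom with hN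
  have hNn : N.Normal := inferInstance
  set O : Submodule W.K (W.H X) := LinearMap.ker (H914.proj (W.isInternal X) i) with hO
  have hUO : IsCompl (W.gr X i) O := by
    refine IsCompl.of_eq ?_ ?_
    · rw [eq_bot_iff]
      rintro x ⟨hx, hx'⟩
      rw [Submodule.mem_bot, ← proj_same (W.isInternal X) hx]
      exact hx'
    · rw [eq_top_iff]
      intro x _
      rw [show x = H914.proj (W.isInternal X) i x + (x - H914.proj (W.isInternal X) i x) by abel]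
      refine Submodule.add_mem_sup (proj_mem _ _ _) ?_
      rw [hO, LinearMap.mem_ker, map_sub, proj_same _ (proj_mem _ _ _), sub_self]
  suffices H : ∀ h₀ h₁ : Module.End W.K (W.H X), (∀ a ∈ W.gr X i, h₀ a ∈ W.gr X i) →
      (∀ a ∈ O, h₀ a = 0) → (∀ n ∈ N, cj (rl G X) n h₀ = h₀) →
      cj (rl G X) ⟨g₀, hg₀⟩ h₀ = h₀ + h₁ → cj (rl G X) ⟨g₀, hg₀⟩ h₁ = h₁ → h₁ = 0 by
    obtain ⟨V'', h1, h2, h3, h4⟩ := exists_compl (rl G X) N ⟨g₀, hg₀⟩
      (fun g => by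
        obtain ⟨t, ht⟩ := hgen g g.2
        exact ⟨t, ht⟩) (V := V) (V' := V') (O := O) (U := W.gr X i) hVU hUO hVV1 hVV2
      (fun g v hv => hV g g.2 v hv)
      (fun g v hv => by
        rw [hO, LinearMap.mem_ker] at hv ⊢
        rw [rl_apply, proj_act G g.2, hv, map_zero])
      (fun g v hv => (G.isGalois X).gr_mem g g.2 i v hv)
      (fun n hn v hv => hV' ⟨n, hn⟩ n.2 v hv) H
    exact ⟨V'', h1, fun g hg c hc => h2 ⟨g, hg⟩ c hc, h3, h4⟩
  -- the hypothesis on the unipotent operators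
  intro h₀ h₁ hU0 hO0 hN0 e0 e1
  obtain ⟨z₀, hz₀⟩ : ∃ z, W.corr z = h₀ := corr_bijective.2 h₀
  obtain ⟨z₁, hz₁⟩ : ∃ z, W.corr z = h₁ := corr_bijective.2 h₁
  have hN1 : ∀ n ∈ N, cj (rl G X) n h₁ = h₁ := by
    have h5 : h₁ = cj (rl G X) ⟨g₀, hg₀⟩ h₀ - h₀ := by rw [e0]; abel
    intro n hn
    rw [h5, map_sub, cj_fixed (rl G X) _ hN0 n hn, hN0 n hn]
  have hgr : z₀ ∈ W.gr (X.prod X) (2 * X.dim) := by
    apply corr_gr
    intro l a ha
    rw [hz₀]
    by_cases hl : l = i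
    · subst hl
      exact hU0 a ha
    · rw [hO0 a (by rw [hO, LinearMap.mem_ker, proj_ne _ ha hl])]
      exact Submodule.zero_mem _
  have hgeo0 : IsTate (res G D) (X.prod X) X.dim z₀ := by
    refine tate_of_comm (res G D) hgr ⟨⊤, inferInstance, fun d _ hd a => ?_⟩
    rw [hz₀]
    have hd' : (d : Γ) ∈ (G.ρ X).dom := hd
    exact ((cj_eq_iff (rl G X)).1 (hN0 ⟨d, hd'⟩ d.2) a).symm
  obtain ⟨t, ht, hlev⟩ := exists_level (act_corr G (X := X)) φ
  obtain ⟨hX, hXX, hact⟩ := hlev n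
  set g : Γ := φ ^ (t * n) with hg
  -- the powers of the generator
  have hmod : ∀ f : Module.End W.K (W.H X), (∀ n ∈ N, cj (rl G X) n f = f) →
      cj (rl G X) ((⟨g₀, hg₀⟩ : (G.ρ X).dom) ^ t) f = cj (rl G X) ⟨g, hX⟩ f := by
    intro f hf
    have h5 : (⟨g, hX⟩ : (G.ρ X).dom)⁻¹ * (⟨g₀, hg₀⟩ : (G.ρ X).dom) ^ t ∈ N := by
      rw [hN, Subgroup.mem_subgroupOf]
      change g⁻¹ * g₀ ^ t ∈ D
      have hd1 : ((d₀ : Γ) : Γ ⧸ D) = 1 := (QuotientGroup.eq_one_iff d₀).2 hd₀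
      have hq : ((g : Γ) : Γ ⧸ D) = ((g₀ ^ t : Γ) : Γ ⧸ D) := by
        rw [hg₀', hg, QuotientGroup.mk_pow (N := D) (φ ^ n * d₀) t, QuotientGroup.mk_mul, hd1,
          mul_one, ← QuotientGroup.mk_pow, ← pow_mul, mul_comm n t]
      exact QuotientGroup.eq.1 hq
    have h6 : (⟨g₀, hg₀⟩ : (G.ρ X).dom) ^ t = ⟨g, hX⟩ *
        ((⟨g, hX⟩ : (G.ρ X).dom)⁻¹ * (⟨g₀, hg₀⟩ : (G.ρ X).dom) ^ t) := by group
    rw [h6, cj_mul, hf _ h5]
  have hp := cj_pow (rl G X) _ e0 e1 t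
  rw [hmod h₀ hN0, hmod h₁ hN1] at hp
  have a0 : (G.ρ (X.prod X)).act g z₀ = (G.χ g : W.K) ^ X.dim • (z₀ + (t : W.K) • z₁) := by
    refine act_corr' G hX hact ?_
    rw [hz₀, hp.1, corr_add, corr_smul, hz₀, hz₁]
  have a1 : (G.ρ (X.prod X)).act g z₁ = (G.χ g : W.K) ^ X.dim • z₁ := by
    refine act_corr' G hX hact ?_
    rw [hz₁, hp.2]
  have hdeep : Deep G D φ 1 (X.prod X) X.dim (((G.χ g : W.K) ^ X.dim * (t : W.K)) • z₁) := by
    have e2 : sb (L G (X.prod X) g) ((G.χ g : W.K) ^ X.dim) z₀ =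
        ((G.χ g : W.K) ^ X.dim * (t : W.K)) • z₁ := by
      rw [sb_apply, L_apply, a0, smul_add, smul_smul, add_sub_cancel_left]
    have e3 : sb (L G (X.prod X) g) ((G.χ g : W.K) ^ X.dim) z₁ = 0 := by
      rw [sb_apply, L_apply, a1, sub_self]
    refine ⟨t * n, Nat.mul_pos ht hn, hXX, z₀, hgeo0, ?_, ?_⟩
    · rw [pow_succ, pow_one, Module.End.mul_apply, e2, map_smul, e3, smul_zero]
    · rw [pow_one, e2]
  have h5 := hno _ hdeep
  have h6 : z₁ = 0 := by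
    refine (smul_eq_zero.1 h5).resolve_left (mul_ne_zero (chi_ne (G := G) g _) ?_)
    exact Nat.cast_ne_zero.2 ht.ne'
  rw [← hz₁, h6, corr_zero]

end Pool.Agent.Q56.DP
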